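import Pool.Agent.Helper4.RB.Main

open Pool.Agent.Helper4.RB

/-- Martin's Maximum implies `ℵ_{ω+1} →poly (ω_1-cl)^2_{<ℵ_ω-bdd}`. -/
theorem Pool.Agent.Results.MP_145a0d_lc.MartinsMaximum.result :
    MartinsMaximum → PolyClosed :=
  Pool.Agent.Helper4.RB.main
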